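import Pool.Agent.CSY.Model

/-!
# CSY: homogeneous sets of type `ν⁺ + α` from a closed system
-/

set_option autoImplicit false

namespace Pool.Agent.CSY

open Cardinal Order Set Ordinal
open Pool.Agent.FGM

variable {ν : Cardinal.{0}} {W γ : Type} [LinearOrder W]

/-- The tops: `ψ F` is a point above `η` in all the sets of the short decreasing family `F` and
`ρ F n` is a smaller member of `D` joined to `ψ F` in the colour `n`. -/
theorem exists_tops {f : W → W → γ} {P : Set γ} {T : Set W} {D : Set (Set W)}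
    (hDT : ∀ B ∈ D, B ⊆ T) (hC : Clo (succ ν).ord D) (hU : ∀ B ∈ D, ∀ w, ∃ a ∈ B, w < a)
    (hR : Ref f P D) (η : W) :
    ∃ (ψ : Set (Set W) → W) (ρ : Set (Set W) → γ → Set W), ∀ i < (succ ν).ord,
      ∀ g : Ordinal.{0} → Set W, (∀ j < i, g j ∈ D) → (∀ j k, j < k → k < i → g k ⊆ g j) →
      ∀ F : Set (Set W), F = {x | ∃ j, ∃ _ : j < i, x = g j} →
        η < ψ F ∧ ψ F ∈ T ∧ (∀ j < i, ψ F ∈ g j) ∧ ∀ n ∈ P, ρ F n ∈ D ∧ (∀ j < i, ρ F n ⊆ g j) ∧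
          ∀ y ∈ ρ F n, ψ F < y ∧ f (ψ F) y = n := by
  classical
  let Good : Set (Set W) → W × (γ → Set W) → Prop := fun F p =>
    η < p.1 ∧ p.1 ∈ T ∧ (∀ X ∈ F, p.1 ∈ X) ∧ ∀ n ∈ P, p.2 n ∈ D ∧ (∀ X ∈ F, p.2 n ⊆ X) ∧
      ∀ y ∈ p.2 n, p.1 < y ∧ f p.1 y = n
  have h1 : ∀ F, ∃ p, (∃ p', Good F p') → Good F p := by
    intro F
    by_cases h : ∃ p', Good F p'
    · exact ⟨h.choose, fun _ => h.choose_spec⟩
    · exact ⟨(η, fun _ => ∅), fun h' => absurd h' h⟩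
  choose p hp using h1
  refine ⟨fun F => (p F).1, fun F => (p F).2, fun i hi g hg1 hg2 F hF => ?_⟩
  have hex : ∃ p', Good F p' := by
    obtain ⟨B, hB, hBg⟩ := hC i hi g hg1 hg2
    obtain ⟨B', hB', hB'B, h2⟩ := hR B hB
    obtain ⟨b, hb, hηb⟩ := hU B' hB' η
    choose! r hr1 hr2 hr3 using h2 b hb
    refine ⟨(b, r), hηb, hDT B' hB' hb, ?_, fun n hn => ⟨hr1 n hn, ?_, hr3 n hn⟩⟩
    · rw [hF]
      rintro X ⟨j, hj, rfl⟩
      exact hBg j hj (hB'B hb)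
    · rw [hF]
      rintro X ⟨j, hj, rfl⟩
      exact (hr2 n hn).trans (hBg j hj)
  have h3 := hp F hex
  subst hF
  exact ⟨h3.1, h3.2.1, fun j hj => h3.2.2.1 _ ⟨j, hj, rfl⟩, fun n hn =>
    ⟨(h3.2.2.2 n hn).1, fun j hj => (h3.2.2.2 n hn).2.1 _ ⟨j, hj, rfl⟩, (h3.2.2.2 n hn).2.2⟩⟩

/-- The branch of the row `a`. -/
noncomputable def Br (f : W → W → γ) (ψ : Set (Set W) → W) (ρ : Set (Set W) → γ → Set W) (a : W) :
    Ordinal.{0} → W × Set W :=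
  (wellFounded_lt (α := Ordinal.{0})).fix fun i rec =>
    (ψ {x | ∃ j, ∃ hj : j < i, x = (rec j hj).2},
      ρ {x | ∃ j, ∃ hj : j < i, x = (rec j hj).2}
        (f a (ψ {x | ∃ j, ∃ hj : j < i, x = (rec j hj).2})))

omit [LinearOrder W] in
theorem Br_eq (f : W → W → γ) (ψ : Set (Set W) → W) (ρ : Set (Set W) → γ → Set W) (a : W)
    (i : Ordinal.{0}) : Br f ψ ρ a i =
      (ψ {x | ∃ j, ∃ _ : j < i, x = (Br f ψ ρ a j).2},
        ρ {x | ∃ j, ∃ _ : j < i, x = (Br f ψ ρ a j).2}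
          (f a (ψ {x | ∃ j, ∃ _ : j < i, x = (Br f ψ ρ a j).2}))) :=
  (wellFounded_lt (α := Ordinal.{0})).fix_eq _ i

omit [LinearOrder W] in
theorem Br_agree (f : W → W → γ) (ψ : Set (Set W) → W) (ρ : Set (Set W) → γ → Set W) (a a' : W)
    (i : Ordinal.{0}) (h : ∀ j < i, f a (Br f ψ ρ a j).1 = f a' (Br f ψ ρ a' j).1) :
    ∀ j < i, Br f ψ ρ a j = Br f ψ ρ a' j := by
  intro j
  induction j using WellFoundedLT.induction with
  | _ j ih =>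
    intro hj
    have hF : {x | ∃ k, ∃ _ : k < j, x = (Br f ψ ρ a k).2} =
        {x | ∃ k, ∃ _ : k < j, x = (Br f ψ ρ a' k).2} := by
      ext x
      constructor
      · rintro ⟨k, hk, rfl⟩
        exact ⟨k, hk, by rw [ih k hk (hk.trans hj)]⟩
      · rintro ⟨k, hk, rfl⟩
        exact ⟨k, hk, by rw [ih k hk (hk.trans hj)]⟩
    have h1 := h j hj
    rw [Br_eq f ψ ρ a j, Br_eq f ψ ρ a' j] at h1 ⊢
    simp only [hF] at h1 ⊢
    rw [h1]

/-- The properties of the branch. -/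
theorem Br_spec {f : W → W → γ} {P : Set γ} {T : Set W} {D : Set (Set W)} {η : W}
    {ψ : Set (Set W) → W} {ρ : Set (Set W) → γ → Set W}
    (hP : ∀ a ∈ T, ∀ b ∈ T, a < b → f a b ∈ P)
    (h : ∀ i < (succ ν).ord,
      ∀ g : Ordinal.{0} → Set W, (∀ j < i, g j ∈ D) → (∀ j k, j < k → k < i → g k ⊆ g j) →
      ∀ F : Set (Set W), F = {x | ∃ j, ∃ _ : j < i, x = g j} →
        η < ψ F ∧ ψ F ∈ T ∧ (∀ j < i, ψ F ∈ g j) ∧ ∀ n ∈ P, ρ F n ∈ D ∧ (∀ j < i, ρ F n ⊆ g j) ∧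
          ∀ y ∈ ρ F n, ψ F < y ∧ f (ψ F) y = n) {a : W} (haT : a ∈ T) (haη : a < η) :
    ∀ i < (succ ν).ord, (Br f ψ ρ a i).2 ∈ D ∧
      (∀ j < i, (Br f ψ ρ a i).2 ⊆ (Br f ψ ρ a j).2) ∧ η < (Br f ψ ρ a i).1 ∧
      (Br f ψ ρ a i).1 ∈ T ∧ (∀ j < i, (Br f ψ ρ a i).1 ∈ (Br f ψ ρ a j).2) ∧
      ∀ y ∈ (Br f ψ ρ a i).2, (Br f ψ ρ a i).1 < y ∧
        f (Br f ψ ρ a i).1 y = f a (Br f ψ ρ a i).1 := by
  intro i
  induction i using WellFoundedLT.induction with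
  | _ i ih =>
    intro hi
    obtain ⟨F, hF⟩ : ∃ F : Set (Set W),
      F = {x | ∃ j, ∃ _ : j < i, x = (Br f ψ ρ a j).2} := ⟨_, rfl⟩
    have h1 := h i hi (fun j => (Br f ψ ρ a j).2) (fun j hj => (ih j hj (hj.trans hi)).1)
      (fun j k hjk hk => (ih k hk (hk.trans hi)).2.1 j hjk) F hF
    obtain ⟨h2, h3, h4, h5⟩ := h1
    have h6 : f a (ψ F) ∈ P := hP a haT _ h3 (haη.trans h2)
    have h7 := h5 _ h6
    rw [Br_eq f ψ ρ a i, ← hF]
    exact ⟨h7.1, h7.2.1, h2, h3, h4, h7.2.2⟩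

set_option maxHeartbeats 1000000 in
/-- Homogeneous sets of type `ν⁺ + α`. -/
theorem mainW (hs : Setting ν W) {τ : Cardinal.{0}} (hτ : ℵ₀ ≤ τ)
    (hτν : 2 ^ τ ≤ ν) (hγ : #γ ≤ τ) (f : W → W → γ) (P : Set γ) (T : Set W) (D : Set (Set W))
    (hDT : ∀ B ∈ D, B ⊆ T) (hP : ∀ a ∈ T, ∀ b ∈ T, a < b → f a b ∈ P)
    (hC : Clo (succ ν).ord D) (hU : ∀ B ∈ D, ∀ w, ∃ a ∈ B, w < a) (hR : Ref f P D) (w₀ : W) :
    ∃ n ∈ P, ∀ α < (succ τ).ord, ∃ K C : Ordinal.{0} → W,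
      ((∀ i < (succ ν).ord, K i ∈ T) ∧ ∀ j < α, C j ∈ T) ∧
      (∀ i j, i < j → j < (succ ν).ord → K i < K j ∧ f (K i) (K j) = n) ∧
      (∀ i j, i < j → j < α → C i < C j ∧ f (C i) (C j) = n) ∧
      ∀ i < (succ ν).ord, ∀ j < α, K i < C j ∧ f (K i) (C j) = n := by
  classical
  have hinf := hs.inf
  have hτν' : τ ≤ ν := (cantor τ).le.trans hτν
  have hγν : #γ ≤ ν := hγ.trans hτν'
  have hτo : (succ τ).ord ≤ (succ ν).ord := by
    rw [Cardinal.ord_le_ord]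
    exact succ_le_succ hτν'
  -- it is enough to find a colour for every `α`
  suffices H : ∀ α < (succ τ).ord, ∃ n ∈ P, ∃ K C : Ordinal.{0} → W,
      ((∀ i < (succ ν).ord, K i ∈ T) ∧ ∀ j < α, C j ∈ T) ∧
      (∀ i j, i < j → j < (succ ν).ord → K i < K j ∧ f (K i) (K j) = n) ∧
      (∀ i j, i < j → j < α → C i < C j ∧ f (C i) (C j) = n) ∧
      ∀ i < (succ ν).ord, ∀ j < α, K i < C j ∧ f (K i) (C j) = n by
    by_contra hcon
    push Not at hcon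
    choose! β hβ1 hβ2 using hcon
    obtain ⟨β', hβ'1, hβ'2⟩ := bdd_succ hτ (fun n : P => β n.1)
      ((Cardinal.mk_set_le P).trans hγ) fun n => hβ1 n.1 n.2
    obtain ⟨n, hn, K, C, ⟨h01, h02⟩, h1, h2, h3⟩ := H β' hβ'1
    obtain ⟨i, hi, j, hj, h4⟩ := hβ2 n hn K C
      ⟨h01, fun j hj => h02 j (hj.trans (hβ'2 ⟨n, hn⟩))⟩ h1 fun i j hij hj =>
      h2 i j hij (hj.trans (hβ'2 ⟨n, hn⟩))
    have h5 := h3 i hi j (hj.trans (hβ'2 ⟨n, hn⟩))
    exact h4 h5.1 h5.2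
  intro α hα
  obtain ⟨M, A, hA, hMD, hMC, hMA, hMR⟩ := model hs hγν f P D hC hU hR w₀
  obtain ⟨η, hη⟩ := hs.bW A hA
  obtain ⟨ψ, ρ, hψ⟩ := exists_tops hDT hC hU hR η
  have hBr := fun (a : W) (haT : a ∈ T) (haA : a ∈ A) (i : Ordinal.{0}) (hi : i < (succ τ).ord) =>
    Br_spec hP hψ haT (hη a haA) i (hi.trans_le hτo)
  -- the colours of the rows
  have hrow : ∀ a, a ∈ T → a ∈ A → ∃ n, ∃ c : Ordinal.{0} → Ordinal.{0},
      ∀ i < (succ τ).ord, c i < (succ τ).ord ∧ f a (Br f ψ ρ a (c i)).1 = n ∧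
        ∀ i' < i, c i' < c i := by
    intro a haT haA
    obtain ⟨n, hn⟩ : ∃ n, ∀ i < (succ τ).ord, ∃ j, i < j ∧ j < (succ τ).ord ∧
        f a (Br f ψ ρ a j).1 = n := by
      by_contra hcon
      push Not at hcon
      choose i hi1 hi2 using hcon
      obtain ⟨b, hb1, hb2⟩ := bdd_succ hτ i hγ hi1
      exact hi2 _ b (hb2 _) hb1 rfl
    obtain ⟨c, hc⟩ := exists_seq hτ (fun j => f a (Br f ψ ρ a j).1 = n) hn
    exact ⟨n, c, hc⟩
  have : Nonempty γ := ⟨f w₀ w₀⟩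
  choose! n c hc using hrow
  -- the codes
  let I : Type := (succ τ).ord.ToType
  let cd : W → Set (I × γ) := fun a => {p | ov p.1 < c a α ∧ p.2 = f a (Br f ψ ρ a (ov p.1)).1}
  have hcd : ∀ a, a ∈ T → a ∈ A → #(cd a) ≤ τ := by
    intro a haT haA
    have h1 : #(cd a) ≤ #{x : I | ov x ∈ Iio (c a α)} := by
      refine mk_le_of_injective (f := fun p => ⟨p.1.1, p.2.1⟩) ?_
      rintro ⟨⟨x, m⟩, hx⟩ ⟨⟨y, m'⟩, hy⟩ hxy
      have h2 : x = y := congrArg Subtype.val hxy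
      subst h2
      have h3 : m = m' := hx.2.trans hy.2.symm
      subst h3
      rfl
    refine h1.trans (card_pre _ ?_)
    rw [Cardinal.mk_Iio_ordinal, Cardinal.lift_le]
    exact lt_succ_iff.1 (Cardinal.lt_ord.1 (hc a haT haA α hα).1)
  have hJ : #({s : Set (I × γ) // s ⊆ univ ∧ #s ≤ τ} × γ) ≤ ν := by
    rw [mk_prod, Cardinal.lift_id, Cardinal.lift_id]
    refine (mul_le_mul' ?_ hγν).trans (mul_eq_self hinf).le
    refine (mk_bounded_subset_le _ _).trans ?_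
    have h1 : #(univ : Set (I × γ)) ≤ 2 ^ τ := by
      rw [mk_univ, mk_prod, Cardinal.lift_id, Cardinal.lift_id, mk_toType']
      refine (mul_le_mul' (succ_le_of_lt (cantor τ)) (hγ.trans (cantor τ).le)).trans ?_
      exact (mul_eq_self (hτ.trans (cantor τ).le)).le
    refine (power_le_power_right (c := τ) (max_le h1 (hτ.trans (cantor τ).le))).trans ?_
    rw [← power_mul, mul_eq_self hτ]
    exact hτν
  obtain ⟨jj, B₀, hB₀, hdns⟩ := somewhere hinf hMC hMA hJ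
    (fun jj => {a | a ∈ T ∧ a ∈ A ∧ cd a = jj.1.1 ∧ n a = jj.2}) (by
      intro B hB a haB haA
      have haT := hDT B (hMD hB) haB
      exact ⟨(⟨cd a, subset_univ _, hcd a haT haA⟩, n a), haT, haA, rfl, rfl⟩)
  have h0 : (0 : Ordinal.{0}) < (succ τ).ord := by
    rw [Cardinal.lt_ord, Ordinal.card_zero]
    exact lt_of_lt_of_le aleph0_pos (hτ.trans (le_succ τ))
  have h0' : (0 : Ordinal.{0}) < (succ ν).ord := h0.trans_le hτo
  have hnP : jj.2 ∈ P := by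
    obtain ⟨a, -, -, haT, haA, -, han⟩ := hdns B₀ hB₀ subset_rfl
    have h1 := (hc a haT haA 0 h0)
    have h2 := hBr a haT haA _ h1.1
    rw [← han, ← h1.2.1]
    exact hP a haT _ h2.2.2.2.1 ((hη a haA).trans h2.2.2.1)
  obtain ⟨K, hK1, hK2⟩ := hom_of_dns hMC hMR hB₀ hdns hnP
  refine ⟨jj.2, hnP, K, fun i => (Br f ψ ρ (K 0) (c (K 0) i)).1,
    ⟨fun i hi => (hK2 i hi).2.1, fun j hj => ?_⟩, hK1, ?_, ?_⟩
  · obtain ⟨-, haT, haA, -, -⟩ := hK2 0 h0'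
    exact (hBr _ haT haA _ (hc _ haT haA j (hj.trans hα)).1).2.2.2.1
  · intro i j hij hj
    obtain ⟨-, haT, haA, -, han⟩ := hK2 0 h0'
    have hci := hc _ haT haA i ((hij.trans hj).trans hα)
    have hcj := hc _ haT haA j (hj.trans hα)
    have h1 := (hBr _ haT haA _ hcj.1).2.2.2.2.1 _ (hcj.2.2 i hij)
    have h2 := (hBr _ haT haA _ hci.1).2.2.2.2.2 _ h1
    refine ⟨h2.1, h2.2.trans (hci.2.1.trans han)⟩
  · intro i hi j hj
    obtain ⟨-, haT, haA, ha1, han⟩ := hK2 0 h0'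
    obtain ⟨-, hbT, hbA, hb1, hbn⟩ := hK2 i hi
    have hcj := hc _ haT haA j (hj.trans hα)
    have h1 := (hBr _ haT haA _ hcj.1).2.2.1
    refine ⟨(hη _ hbA).trans h1, ?_⟩
    have hcα := hc _ haT haA α hα
    -- the two rows agree below `c (K 0) α`
    have hag : ∀ k < c (K 0) α, k < c (K i) α ∧
        f (K 0) (Br f ψ ρ (K 0) k).1 = f (K i) (Br f ψ ρ (K i) k).1 := by
      intro k hk
      obtain ⟨x, rfl⟩ := exists_ov (hk.trans hcα.1)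
      have h2 : (x, f (K 0) (Br f ψ ρ (K 0) (ov x)).1) ∈ cd (K 0) := ⟨hk, rfl⟩
      rw [ha1, ← hb1] at h2
      exact h2
    have h3 := Br_agree f ψ ρ (K 0) (K i) (c (K 0) α) (fun k hk => (hag k hk).2) _
      (hcα.2.2 j hj)
    change f (K i) (Br f ψ ρ (K 0) (c (K 0) j)).1 = jj.2
    rw [h3, ← (hag _ (hcα.2.2 j hj)).2]
    exact hcj.2.1.trans han

end Pool.Agent.CSY
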