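import Pool.Agent.FGM.TwoOrd

/-!
# CSY: closed systems of unbounded sets

A family `D` of subsets of a well-order `W` of type `ν⁺⁺`, closed under decreasing sequences of
length `< ν⁺`. This file contains the small submodel `M` of `D`.
-/

set_option autoImplicit false

namespace Pool.Agent.CSY

open Cardinal Order Set Ordinal
open Pool.Agent.FGM

universe u

/-- Every decreasing sequence of length `< μ` in `D` has a lower bound in `D`. -/
def Clo (μ : Ordinal.{0}) {Y : Type u} (D : Set (Set Y)) : Prop :=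
  ∀ α < μ, ∀ g : Ordinal.{0} → Set Y, (∀ i < α, g i ∈ D) →
    (∀ i j, i < j → j < α → g j ⊆ g i) → ∃ B ∈ D, ∀ i < α, B ⊆ g i

/-- Every `B ∈ D` has a subset `B' ∈ D` such that for all `a ∈ B'` and all `n ∈ P` the set of the
`y ∈ B` above `a` which are joined to `a` in the colour `n` contains a member of `D`. -/
def Ref {Y : Type u} [LT Y] {γ : Type} (f : Y → Y → γ) (P : Set γ) (D : Set (Set Y)) : Prop :=
  ∀ B ∈ D, ∃ B' ∈ D, B' ⊆ B ∧ ∀ a ∈ B', ∀ n ∈ P, ∃ B'' ∈ D, B'' ⊆ B ∧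
    ∀ y ∈ B'', a < y ∧ f a y = n

/-- Recursion along the ordinals with a free choice at every step. -/
theorem ord_choice_u {V : Type u}
    (R : ∀ j : Ordinal.{0}, (∀ j', j' < j → V) → V → Prop) (hR : ∀ j g, ∃ v, R j g v) :
    ∃ h : Ordinal.{0} → V, ∀ j, R j (fun j' _ => h j') (h j) := by
  classical
  let F : ∀ j : Ordinal.{0}, (∀ j', j' < j → V) → V := fun j g => Classical.choose (hR j g)
  refine ⟨(wellFounded_lt (α := Ordinal.{0})).fix F, fun j => ?_⟩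
  have h1 := (wellFounded_lt (α := Ordinal.{0})).fix_eq F j
  rw [h1]
  exact Classical.choose_spec (hR j fun j' _ => (wellFounded_lt (α := Ordinal.{0})).fix F j')

/-- A decreasing recursion of length `μ`. -/
theorem dec_rec {Y V : Type u} {μ : Ordinal.{0}} {M : Set (Set Y)} (hM : Clo μ M) (pr : V → Set Y)
    (R : Ordinal.{0} → Set Y → V → Prop) (B₀ : Set Y) (hB₀ : B₀ ∈ M) (v₀ : V)
    (hR : ∀ j < μ, ∀ B ∈ M, B ⊆ B₀ → ∃ v, pr v ∈ M ∧ pr v ⊆ B ∧ R j B v) :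
    ∃ h : Ordinal.{0} → V, ∀ j < μ, pr (h j) ∈ M ∧ (∀ i < j, pr (h j) ⊆ pr (h i)) ∧
      ∃ B ∈ M, B ⊆ B₀ ∧ (∀ i < j, B ⊆ pr (h i)) ∧ pr (h j) ⊆ B ∧ R j B (h j) := by
  classical
  obtain ⟨h, hh⟩ := ord_choice_u (V := V)
    (fun j g v => j < μ → (∀ j' (hj : j' < j), pr (g j' hj) ∈ M ∧ pr (g j' hj) ⊆ B₀) →
      (∀ i' j' (hi : i' < j') (hj : j' < j), pr (g j' hj) ⊆ pr (g i' (hi.trans hj))) →
      ∃ B ∈ M, B ⊆ B₀ ∧ (∀ i (hi : i < j), B ⊆ pr (g i hi)) ∧ pr v ∈ M ∧ pr v ⊆ B ∧ R j B v) (by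
      intro j g
      by_cases hcase : j < μ ∧ (∀ j' (hj : j' < j), pr (g j' hj) ∈ M ∧ pr (g j' hj) ⊆ B₀) ∧
        ∀ i' j' (hi : i' < j') (hj : j' < j), pr (g j' hj) ⊆ pr (g i' (hi.trans hj))
      swap
      · exact ⟨v₀, fun h1 h2 h3 => absurd ⟨h1, h2, h3⟩ hcase⟩
      obtain ⟨hj, hg1, hg2⟩ := hcase
      obtain ⟨B, hB, hBB₀, hBg⟩ : ∃ B ∈ M, B ⊆ B₀ ∧ ∀ i (hi : i < j), B ⊆ pr (g i hi) := by
        rcases eq_or_ne j 0 with rfl | hj0
        · exact ⟨B₀, hB₀, subset_rfl, fun i hi => absurd hi not_lt_zero⟩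
        obtain ⟨B, hB, hB'⟩ := hM j hj (fun i => if hi : i < j then pr (g i hi) else ∅) (by
            intro i hi
            simp only [dif_pos hi]
            exact (hg1 i hi).1) (by
            intro i i' hii hi'
            simp only [dif_pos hi', dif_pos (hii.trans hi')]
            exact hg2 i i' hii hi')
        have hB'' : ∀ i (hi : i < j), B ⊆ pr (g i hi) := by
          intro i hi
          have h1 := hB' i hi
          simp only [dif_pos hi] at h1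
          exact h1
        have h0 : 0 < j := pos_iff_ne_zero.2 hj0
        exact ⟨B, hB, (hB'' 0 h0).trans (hg1 0 h0).2, hB''⟩
      obtain ⟨v, hv1, hv2, hv3⟩ := hR j hj B hB hBB₀
      exact ⟨v, fun _ _ _ => ⟨B, hB, hBB₀, hBg, hv1, hv2, hv3⟩⟩)
  have key : ∀ j, j < μ → (pr (h j) ∈ M ∧ pr (h j) ⊆ B₀) ∧ ∀ i < j, pr (h j) ⊆ pr (h i) := by
    intro j
    induction j using WellFoundedLT.induction with
    | _ j ih =>
      intro hj
      obtain ⟨B, hB, hB1, hB2, hB3, hB4, hB5⟩ := hh j hj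
        (fun j' hj' => (ih j' hj' (hj'.trans hj)).1)
        (fun i' j' hi' hj' => (ih j' hj' (hj'.trans hj)).2 i' hi')
      exact ⟨⟨hB3, hB4.trans hB1⟩, fun i hi => hB4.trans (hB2 i hi)⟩
  refine ⟨h, fun j hj => ?_⟩
  obtain ⟨B, hB, hB1, hB2, hB3, hB4, hB5⟩ := hh j hj
    (fun j' hj' => (key j' (hj'.trans hj)).1)
    (fun i' j' hi' hj' => (key j' (hj'.trans hj)).2 i' hi')
  exact ⟨hB3, (key j hj).2, B, hB, hB1, hB2, hB4, hB5⟩

/-- Closure under `ν`-ary operations. -/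
theorem exists_closed {ν : Cardinal.{0}} (hν : ℵ₀ ≤ ν) (hpow : (succ ν) ^ ν = succ ν)
    {Z N Λ : Type} (hN : #N = ν) (hΛ : #Λ ≤ succ ν) (z₀ : Z) (G : Λ → (N → Z) → Z) :
    ∃ A : Set Z, #A ≤ succ ν ∧ z₀ ∈ A ∧ ∀ l t, (∀ i, t i ∈ A) → G l t ∈ A := by
  classical
  have hinf : ℵ₀ ≤ succ ν := hν.trans (le_succ ν)
  let β : Λ ⊕ Unit → Type := Sum.elim (fun _ => N) (fun _ => Empty)
  let st : (Σ a : Λ ⊕ Unit, β a → Z) → Z := fun x => match x with
    | ⟨Sum.inl l, t⟩ => G l t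
    | ⟨Sum.inr _, _⟩ => z₀
  let val : WType β → Z := WType.elim Z st
  refine ⟨range val, mk_range_le.trans ?_, ⟨WType.mk (Sum.inr ()) (fun e => e.elim), rfl⟩, ?_⟩
  · refine WType.cardinalMk_le_of_le ?_
    refine (sum_le_mk_mul_iSup _).trans ?_
    have h1 : #(Λ ⊕ Unit) ≤ succ ν := by
      rw [mk_sum]
      simp only [Cardinal.lift_id]
      refine (add_le_add hΛ ?_).trans (add_eq_self hinf).le
      rw [mk_eq_one]
      exact one_le_aleph0.trans hinf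
    have h2 : ⨆ a : Λ ⊕ Unit, (succ ν) ^ #(β a) ≤ succ ν := by
      refine ciSup_le' ?_
      rintro (l | l)
      · change (succ ν) ^ #N ≤ succ ν
        rw [hN, hpow]
      · change (succ ν) ^ #Empty ≤ succ ν
        rw [mk_eq_zero, power_zero]
        exact one_le_aleph0.trans hinf
    exact (mul_le_mul' h1 h2).trans (mul_eq_self hinf).le
  · intro l t ht
    choose s hs using ht
    refine ⟨WType.mk (Sum.inl l) s, ?_⟩
    have h1 : (fun i => val (s i)) = t := funext hs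
    change G l (fun i => val (s i)) = G l t
    rw [h1]

/-- Enumeration of a small set of ordinals. -/
theorem exists_enum {ν : Cardinal.{0}} {N : Type} (hN : #N = ν) {α : Ordinal.{0}} (h0 : α ≠ 0)
    (hα : α < (succ ν).ord) : ∃ e : N → Ordinal.{0}, (∀ x, e x < α) ∧ ∀ j < α, ∃ x, e x = j := by
  have h1 : #α.ToType ≤ #N := by
    rw [Cardinal.mk_toType, hN]
    exact lt_succ_iff.1 (Cardinal.lt_ord.1 hα)
  obtain ⟨φ⟩ := h1
  obtain ⟨x₀, -⟩ := exists_ov (pos_iff_ne_zero.2 h0)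
  have : Nonempty α.ToType := ⟨x₀⟩
  refine ⟨fun x => ov (Function.invFun φ x), fun x => ov_lt_self _, fun j hj => ?_⟩
  obtain ⟨y, rfl⟩ := exists_ov hj
  exact ⟨φ y, congrArg ov (Function.leftInverse_invFun φ.injective y)⟩

variable {ν : Cardinal.{0}} {W γ : Type} [LinearOrder W]

/-- The small submodel. -/
theorem model (hs : Setting ν W) (hγ : #γ ≤ ν) (f : W → W → γ) (P : Set γ)
    (D : Set (Set W)) (hC : Clo (succ ν).ord D) (hU : ∀ B ∈ D, ∀ w, ∃ a ∈ B, w < a)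
    (hR : Ref f P D) (w₀ : W) :
    ∃ (M : Set (Set W)) (A : Set W), #A ≤ succ ν ∧ M ⊆ D ∧ Clo (succ ν).ord M ∧
      (∀ B ∈ M, ∃ a ∈ B, a ∈ A) ∧
      (∀ B ∈ M, ∃ B' ∈ M, B' ⊆ B ∧ ∀ a ∈ B', a ∈ A → ∀ n ∈ P, ∃ B'' ∈ M, B'' ⊆ B ∧
        ∀ y ∈ B'', a < y ∧ f a y = n) := by
  classical
  have hinf : ℵ₀ ≤ succ ν := hs.inf.trans (le_succ ν)
  have hpos : 0 < (succ ν).ord := by
    rw [Cardinal.lt_ord, Ordinal.card_zero]
    exact lt_of_lt_of_le aleph0_pos (hs.inf.trans (le_succ ν))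
  obtain ⟨B₀, hB₀, -⟩ := hC 0 hpos (fun _ => ∅) (fun i hi => absurd hi not_lt_zero)
    (fun i j _ hj => absurd hj not_lt_zero)
  -- the choices
  choose! q hq1 hq2 hq3 using hR
  choose! r hr1 hr2 hr3 using hq3
  choose! v hv1 hv2 using hU
  obtain ⟨N, hN⟩ : ∃ N : Type, #N = ν := ⟨ν.out, mk_out ν⟩
  have : Infinite N := by
    rw [infinite_iff, hN]
    exact hs.inf
  obtain ⟨i0, i1, hi01⟩ := exists_pair_ne N
  let LB : (N → Set W × W) → Set W := fun t =>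
    if h : ∃ B ∈ D, ∀ i, B ⊆ (t i).1 then h.choose else B₀
  let G : Fin 3 ⊕ γ → (N → Set W × W) → Set W × W := fun l t => match l with
    | Sum.inl 0 => (LB t, w₀)
    | Sum.inl 1 => (q (t i0).1, w₀)
    | Sum.inl 2 => (B₀, v (t i0).1 w₀)
    | Sum.inr n => (r (t i0).1 (t i1).2 n, w₀)
  obtain ⟨E, hE1, hE2, hE3⟩ := exists_closed hs.inf hs.pow (Λ := Fin 3 ⊕ γ) hN (by
    rw [mk_sum]
    simp only [Cardinal.lift_id]
    refine (add_le_add ?_ (hγ.trans (le_succ ν))).trans (add_eq_self hinf).le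
    exact (mk_le_aleph0).trans hinf) (B₀, w₀) G
  refine ⟨{B | B ∈ D ∧ ∃ w, (B, w) ∈ E}, {a | ∃ B, (B, a) ∈ E}, ?_, fun B hB => hB.1, ?_, ?_, ?_⟩
  · have h1 : {a | ∃ B, (B, a) ∈ E} ⊆ Prod.snd '' E := by
      rintro a ⟨B, hB⟩
      exact ⟨_, hB, rfl⟩
    exact (mk_le_mk_of_subset h1).trans (mk_image_le.trans hE1)
  · -- closure
    intro α hα g hg1 hg2
    rcases eq_or_ne α 0 with rfl | hα0
    · exact ⟨B₀, ⟨hB₀, w₀, hE2⟩, fun i hi => absurd hi not_lt_zero⟩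
    obtain ⟨e, he1, he2⟩ := exists_enum hN hα0 hα
    obtain ⟨B, hB, hBg⟩ := hC α hα g (fun i hi => (hg1 i hi).1) hg2
    have : Nonempty W := ⟨w₀⟩
    choose! w hw using fun i (hi : i < α) => (hg1 i hi).2
    have hex : ∃ B ∈ D, ∀ i, B ⊆ ((fun x => (g (e x), w (e x)) : N → Set W × W) i).1 :=
      ⟨B, hB, fun x => hBg _ (he1 x)⟩
    have h1 := hE3 (Sum.inl 0) (fun x => (g (e x), w (e x))) fun x => hw _ (he1 x)
    have h2 : G (Sum.inl 0) (fun x => (g (e x), w (e x))) = (hex.choose, w₀) := by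
      change ((if h : ∃ B ∈ D, ∀ i, B ⊆ ((fun x => (g (e x), w (e x)) : N → Set W × W) i).1
        then h.choose else B₀), w₀) = (hex.choose, w₀)
      rw [dif_pos hex]
    rw [h2] at h1
    refine ⟨hex.choose, ⟨hex.choose_spec.1, w₀, h1⟩, fun i hi => ?_⟩
    obtain ⟨x, rfl⟩ := he2 i hi
    exact hex.choose_spec.2 x
  · rintro B ⟨hB, w, hw⟩
    exact ⟨v B w₀, hv1 B hB w₀, B₀, hE3 (Sum.inl 2) (fun _ => (B, w)) fun _ => hw⟩
  · rintro B ⟨hB, w, hw⟩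
    refine ⟨q B, ⟨hq1 B hB, w₀, hE3 (Sum.inl 1) (fun _ => (B, w)) fun _ => hw⟩, hq2 B hB, ?_⟩
    rintro a ha ⟨B', hB'⟩ n hn
    refine ⟨r B a n, ⟨hr1 B hB a ha n hn, w₀, ?_⟩, hr2 B hB a ha n hn, hr3 B hB a ha n hn⟩
    have h1 := hE3 (Sum.inr n) (fun i => if i = i0 then (B, w) else (B', a)) (by
      intro i
      by_cases hi : i = i0
      · rw [if_pos hi]
        exact hw
      · rw [if_neg hi]
        exact hB')
    have h2 : G (Sum.inr n) (fun i => if i = i0 then (B, w) else (B', a)) = (r B a n, w₀) := by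
      change (r (if i0 = i0 then (B, w) else (B', a)).1
        (if i1 = i0 then (B, w) else (B', a)).2 n, w₀) = (r B a n, w₀)
      rw [if_pos rfl, if_neg hi01.symm]
    rw [h2] at h1
    exact h1

/-- `S` meets all the members of `M` below `B₀`. -/
def Dns (M : Set (Set W)) (A S B₀ : Set W) : Prop :=
  ∀ B ∈ M, B ⊆ B₀ → ∃ a ∈ B, a ∈ A ∧ a ∈ S

omit [LinearOrder W] in
/-- Few sets which cover `A` cannot all be nowhere dense. -/
theorem somewhere (hν : ℵ₀ ≤ ν) {M : Set (Set W)} {A : Set W} (hM : Clo (succ ν).ord M)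
    (hA : ∀ B ∈ M, ∃ a ∈ B, a ∈ A) {J : Type} (hJ : #J ≤ ν) (S : J → Set W)
    (hS : ∀ B ∈ M, ∀ a ∈ B, a ∈ A → ∃ j, a ∈ S j) : ∃ j, ∃ B₀ ∈ M, Dns M A (S j) B₀ := by
  classical
  by_contra hcon
  push Not at hcon
  unfold Dns at hcon
  push Not at hcon
  have hpos : 0 < (succ ν).ord := by
    rw [Cardinal.lt_ord, Ordinal.card_zero]
    exact lt_of_lt_of_le aleph0_pos (hν.trans (le_succ ν))
  obtain ⟨B₀, hB₀, -⟩ := hM 0 hpos (fun _ => ∅) (fun i hi => absurd hi not_lt_zero)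
    (fun i j _ hj => absurd hj not_lt_zero)
  -- an injection into an ordinal
  obtain ⟨α, hα, e, he1, he2⟩ : ∃ α < (succ ν).ord, ∃ e : J → Ordinal.{0}, (∀ j, e j < α) ∧
      ∀ j j', e j = e j' → j = j' := by
    have h1 : #J = #((#J).ord.ToType) := by rw [mk_toType']
    obtain ⟨φ⟩ := Cardinal.eq.1 h1
    refine ⟨(#J).ord, ?_, fun j => ov (φ j), fun j => ov_lt_self _, fun j j' h => ?_⟩
    · rw [Cardinal.ord_lt_ord]
      exact lt_succ_of_le hJ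
    · exact φ.injective (ov_inj h)
  obtain ⟨h, hh⟩ := dec_rec hM (fun v : Set W => v)
    (fun i _ v => ∀ j, e j = i → ∀ a ∈ v, a ∈ A → a ∉ S j) B₀ hB₀ B₀ (by
      intro i hi B hB _
      by_cases hex : ∃ j, e j = i
      · obtain ⟨j, hj⟩ := hex
        obtain ⟨B', hB', hBB, hB3⟩ := hcon j B hB
        refine ⟨B', hB', hBB, fun j' hj' => ?_⟩
        rw [he2 j' j (hj'.trans hj.symm)]
        exact hB3
      · exact ⟨B, hB, subset_rfl, fun j hj => absurd ⟨j, hj⟩ hex⟩)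
  obtain ⟨B, hB, hBh⟩ := hM α hα h (fun i hi => (hh i (hi.trans hα)).1)
    (fun i j hij hj => (hh j (hj.trans hα)).2.1 i hij)
  obtain ⟨a, haB, haA⟩ := hA B hB
  obtain ⟨j, hj⟩ := hS B hB a haB haA
  obtain ⟨B', -, -, -, -, h1⟩ := (hh (e j) ((he1 j).trans hα)).2.2
  exact h1 j rfl a (hBh _ (he1 j) haB) haA hj

/-- A somewhere dense set contains homogeneous sets of type `ν⁺` in all the colours of `P`. -/
theorem hom_of_dns {M : Set (Set W)} {A S B₀ : Set W} {f : W → W → γ} {P : Set γ}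
    (hM : Clo (succ ν).ord M)
    (hR : ∀ B ∈ M, ∃ B' ∈ M, B' ⊆ B ∧ ∀ a ∈ B', a ∈ A → ∀ n ∈ P, ∃ B'' ∈ M, B'' ⊆ B ∧
        ∀ y ∈ B'', a < y ∧ f a y = n) (hB₀ : B₀ ∈ M) (hS : Dns M A S B₀) {n : γ} (hn : n ∈ P) :
    ∃ K : Ordinal.{0} → W, (∀ i j, i < j → j < (succ ν).ord → K i < K j ∧ f (K i) (K j) = n) ∧
      ∀ i < (succ ν).ord, K i ∈ A ∧ K i ∈ S := by
  obtain ⟨w₀, -, -⟩ := hS B₀ hB₀ subset_rfl
  obtain ⟨h, hh⟩ := dec_rec hM (fun v : W × Set W => v.2)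
    (fun _ B v => v.1 ∈ B ∧ v.1 ∈ A ∧ v.1 ∈ S ∧ ∀ y ∈ v.2, v.1 < y ∧ f v.1 y = n) B₀ hB₀
    (w₀, ∅) (by
      intro i _ B hB hBB₀
      obtain ⟨B', hB', hB'B, h1⟩ := hR B hB
      obtain ⟨a, haB, haA, haS⟩ := hS B' hB' (hB'B.trans hBB₀)
      obtain ⟨B'', hB'', hB''B, h2⟩ := h1 a haB haA n hn
      exact ⟨(a, B''), hB'', hB''B, hB'B haB, haA, haS, h2⟩)
  refine ⟨fun i => (h i).1, fun i j hij hj => ?_, fun i hi => ?_⟩
  · obtain ⟨B, -, -, h1, -, h2, -⟩ := (hh j hj).2.2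
    obtain ⟨B', -, -, -, -, -, -, -, h3⟩ := (hh i (hij.trans hj)).2.2
    exact h3 _ (h1 i hij h2)
  · obtain ⟨B', -, -, -, -, -, h1, h2, -⟩ := (hh i hi).2.2
    exact ⟨h1, h2⟩

end Pool.Agent.CSY
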