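import Pool.Agent.CSY.Main

/-!
# CSY: the theorem for ordinals
-/

set_option autoImplicit false

namespace Pool.Agent.CSY

open Cardinal Order Set Ordinal
open Pool.Agent.FGM

universe u

/-- There is a subset of `T` of order type `ξ` (the set of the `h j`, `j < ξ`) all of whose pairs
have the colour `n`. -/
def Hom {γ : Type} (T : Set Ordinal.{0}) (f : Ordinal.{0} → Ordinal.{0} → γ) (n : γ)
    (ξ : Ordinal.{0}) : Prop :=
  ∃ h : Ordinal.{0} → Ordinal.{0}, (∀ j < ξ, h j ∈ T) ∧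
    ∀ i j, i < j → j < ξ → h i < h j ∧ f (h i) (h j) = n

/-- The transfer of the homogeneous set. -/
theorem hom_of {ν : Cardinal.{0}} {γ : Type} (f : Ordinal.{0} → Ordinal.{0} → γ) (n : γ)
    (T : Set Ordinal.{0}) (α : Ordinal.{0}) (K C : Ordinal.{0} → (succ (succ ν)).ord.ToType)
    (hKT : ∀ i < (succ ν).ord, ov (K i) ∈ T) (hCT : ∀ j < α, ov (C j) ∈ T)
    (hK : ∀ i j, i < j → j < (succ ν).ord → K i < K j ∧ f (ov (K i)) (ov (K j)) = n)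
    (hC : ∀ i j, i < j → j < α → C i < C j ∧ f (ov (C i)) (ov (C j)) = n)
    (hKC : ∀ i < (succ ν).ord, ∀ j < α, K i < C j ∧ f (ov (K i)) (ov (C j)) = n) :
    Hom T f n ((succ ν).ord + α) := by
  classical
  have hsub : ∀ j, j < (succ ν).ord + α → (succ ν).ord ≤ j → j - (succ ν).ord < α :=
    fun j hj hle => (Ordinal.sub_lt_of_le hle).2 hj
  refine ⟨fun j => if j < (succ ν).ord then ov (K j) else ov (C (j - (succ ν).ord)), ?_, ?_⟩
  · intro j hj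
    by_cases hj' : j < (succ ν).ord
    · simp only [if_pos hj']
      exact hKT j hj'
    · simp only [if_neg hj']
      exact hCT _ (hsub j hj (not_lt.1 hj'))
  · intro i j hij hj
    simp only
    by_cases hi : i < (succ ν).ord
    · rw [if_pos hi]
      by_cases hj' : j < (succ ν).ord
      · rw [if_pos hj']
        exact ⟨ov_lt.2 (hK i j hij hj').1, (hK i j hij hj').2⟩
      · rw [if_neg hj']
        have h3 := hKC i hi _ (hsub j hj (not_lt.1 hj'))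
        exact ⟨ov_lt.2 h3.1, h3.2⟩
    · have hj' : ¬ j < (succ ν).ord := fun h => hi (hij.trans h)
      rw [if_neg hi, if_neg hj']
      have h3 : i - (succ ν).ord < j - (succ ν).ord := by
        rw [Ordinal.sub_lt_of_le (not_lt.1 hi), Ordinal.add_sub_cancel_of_le (not_lt.1 hj')]
        exact hij
      have h4 := hC _ _ h3 (hsub j hj (not_lt.1 hj'))
      exact ⟨ov_lt.2 h4.1, h4.2⟩

theorem image_pre {κ : Ordinal.{0}} {B : Set Ordinal.{0}} (hB : ∀ a ∈ B, a < κ) :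
    (ov (κ := κ)) '' {x | ov x ∈ B} = B := by
  ext a
  constructor
  · rintro ⟨x, hx, rfl⟩
    exact hx
  · intro ha
    obtain ⟨x, rfl⟩ := exists_ov (hB a ha)
    exact ⟨x, ha, rfl⟩

/-- The closed system theorem. -/
theorem sys_ord {ν τ : Cardinal.{0}} (hτ : ℵ₀ ≤ τ) (hτν : 2 ^ τ ≤ ν) (h2 : 2 ^ ν = succ ν)
    {γ : Type} (hγ : #γ ≤ τ) (f : Ordinal.{0} → Ordinal.{0} → γ) (T : Set Ordinal.{0})
    (P : Set γ) (D : Set (Set Ordinal.{0})) (hT : ∀ a ∈ T, a < (succ (succ ν)).ord)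
    (hDT : ∀ B ∈ D, B ⊆ T) (hP : ∀ a ∈ T, ∀ b ∈ T, a < b → f a b ∈ P)
    (hU : ∀ B ∈ D, ∀ w < (succ (succ ν)).ord, ∃ a ∈ B, w < a) (hR : Ref f P D)
    (hC : Clo (succ ν).ord D) :
    ∃ n ∈ P, ∀ α < (succ τ).ord, Hom T f n ((succ ν).ord + α) := by
  classical
  have h1 : ℵ₀ ≤ ν := (hτ.trans (cantor τ).le).trans hτν
  have hs := setting_of h1 h2
  have hpos : 0 < (succ (succ ν)).ord := by
    rw [Cardinal.lt_ord, Ordinal.card_zero]
    exact lt_of_lt_of_le aleph0_pos ((h1.trans (le_succ ν)).trans (le_succ _))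
  obtain ⟨w₀, -⟩ := exists_ov hpos
  have hpre : ∀ B ∈ D, (ov (κ := (succ (succ ν)).ord)) '' {x | ov x ∈ B} = B := fun B hB =>
    image_pre fun a ha => hT a (hDT B hB ha)
  have hsubs : ∀ (B : Set Ordinal.{0}) (B' : Set (succ (succ ν)).ord.ToType),
      B ⊆ ov '' B' → {x | ov x ∈ B} ⊆ B' := by
    intro B B' h x hx
    obtain ⟨y, hy, hyx⟩ := h hx
    rw [← ov_inj hyx]
    exact hy
  obtain ⟨n, hn, H⟩ := mainW hs hτ hτν hγ (fun x y => f (ov x) (ov y)) P {x | ov x ∈ T}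
    {B | ov '' B ∈ D} (fun B hB x hx => hDT _ hB ⟨x, hx, rfl⟩)
    (fun a ha b hb hab => hP _ ha _ hb (ov_lt.2 hab)) (by
      intro α hα g hg1 hg2
      obtain ⟨B, hB, hBg⟩ := hC α hα (fun i => ov '' g i) hg1
        fun i j hij hj => image_mono (hg2 i j hij hj)
      refine ⟨{x | ov x ∈ B}, ?_, fun i hi => hsubs _ _ (hBg i hi)⟩
      change ov '' {x | ov x ∈ B} ∈ D
      rw [hpre B hB]
      exact hB) (by
      intro B hB w
      obtain ⟨a, ⟨x, hx, rfl⟩, ha⟩ := hU _ hB (ov w) (ov_lt_self w)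
      exact ⟨x, hx, ov_lt.1 ha⟩) (by
      intro B hB
      obtain ⟨B', hB', hB'B, h3⟩ := hR _ hB
      refine ⟨{x | ov x ∈ B'}, ?_, hsubs _ _ hB'B, fun a ha n hn => ?_⟩
      · change ov '' {x | ov x ∈ B'} ∈ D
        rw [hpre B' hB']
        exact hB'
      · obtain ⟨B'', hB'', hB''B, h4⟩ := h3 (ov a) ha n hn
        refine ⟨{x | ov x ∈ B''}, ?_, hsubs _ _ hB''B, fun y hy => ?_⟩
        · change ov '' {x | ov x ∈ B''} ∈ D
          rw [hpre B'' hB'']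
          exact hB''
        · exact ⟨ov_lt.1 (h4 _ hy).1, (h4 _ hy).2⟩) w₀
  refine ⟨n, hn, fun α hα => ?_⟩
  obtain ⟨K, C, ⟨hKT, hCT⟩, hK, hC', hKC⟩ := H α hα
  exact hom_of f n T α K C hKT hCT hK hC' hKC

/-- Every `B ∈ D` has a subset `B' ∈ D` such that either no pair of `B'` has the colour `n`, or
for every `a ∈ B'` the set of the `y ∈ B` above `a` with `f a y = n` contains a member of `D`. -/
def Nor {γ : Type} (f : Ordinal.{0} → Ordinal.{0} → γ) (D : Set (Set Ordinal.{0})) : Prop :=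
  ∀ B ∈ D, ∀ n, ∃ B' ∈ D, B' ⊆ B ∧ ((∀ a ∈ B', ∀ b ∈ B', a < b → f a b ≠ n) ∨
    ∀ a ∈ B', ∃ B'' ∈ D, B'' ⊆ B ∧ ∀ y ∈ B'', a < y ∧ f a y = n)

theorem crit_ord {ν τ : Cardinal.{0}} (hτ : ℵ₀ ≤ τ) (hτν : 2 ^ τ ≤ ν) (h2 : 2 ^ ν = succ ν)
    {γ : Type} (hγ : #γ ≤ τ) (f : Ordinal.{0} → Ordinal.{0} → γ) (D : Set (Set Ordinal.{0}))
    (hD : ∀ B ∈ D, (∀ a ∈ B, a < (succ (succ ν)).ord) ∧
      ∀ w < (succ (succ ν)).ord, ∃ a ∈ B, w < a)
    (hC : Clo (succ ν).ord D) (hN : Nor f D) :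
    ∀ B ∈ D, ∃ n, ∀ α < (succ τ).ord, Hom B f n ((succ ν).ord + α) := by
  classical
  intro B₀ hB₀
  have h1 : ℵ₀ ≤ ν := (hτ.trans (cantor τ).le).trans hτν
  have hτν' : τ ≤ ν := (cantor τ).le.trans hτν
  -- an injection of the colours
  obtain ⟨α₀, hα₀, e, he1, he2⟩ : ∃ α < (succ ν).ord, ∃ e : γ → Ordinal.{0}, (∀ j, e j < α) ∧
      ∀ j j', e j = e j' → j = j' := by
    have h1 : #γ = #((#γ).ord.ToType) := by rw [mk_toType']
    obtain ⟨φ⟩ := Cardinal.eq.1 h1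
    refine ⟨(#γ).ord, ?_, fun j => ov (φ j), fun j => ov_lt_self _, fun j j' h => ?_⟩
    · rw [Cardinal.ord_lt_ord]
      exact lt_succ_of_le (hγ.trans hτν')
    · exact φ.injective (ov_inj h)
  -- the set `T`
  let Om : γ → Set Ordinal.{0} → Prop := fun n B => ∀ a ∈ B, ∀ b ∈ B, a < b → f a b ≠ n
  have hmono : ∀ n B B', B' ⊆ B → Om n B → Om n B' := fun n B B' h h' a ha b hb =>
    h' a (h ha) b (h hb)
  obtain ⟨h, hh⟩ := dec_rec hC (fun v : Set Ordinal.{0} => v)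
    (fun i _ v => ∀ n, e n = i → Om n v ∨ ∀ B ∈ D, B ⊆ v → ¬ Om n B) B₀ hB₀ B₀ (by
      intro i hi B hB _
      by_cases hex : ∃ n, e n = i ∧ ∃ B' ∈ D, B' ⊆ B ∧ Om n B'
      · obtain ⟨n, hn, B', hB', hB'B, h3⟩ := hex
        refine ⟨B', hB', hB'B, fun n' hn' => Or.inl ?_⟩
        rw [he2 n' n (hn'.trans hn.symm)]
        exact h3
      · push Not at hex
        exact ⟨B, hB, subset_rfl, fun n hn => Or.inr fun B' hB' hB'B => hex n hn B' hB' hB'B⟩)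
  obtain ⟨T, hT, hTB₀, hTh⟩ : ∃ T ∈ D, T ⊆ B₀ ∧ ∀ i < α₀, T ⊆ h i := by
    rcases eq_or_ne α₀ 0 with h0 | h0
    · exact ⟨B₀, hB₀, subset_rfl, fun i hi => by
        rw [h0] at hi
        exact absurd hi not_lt_zero⟩
    · obtain ⟨T, hT, hTh⟩ := hC α₀ hα₀ h (fun i hi => (hh i (hi.trans hα₀)).1)
        (fun i j hij hj => (hh j (hj.trans hα₀)).2.1 i hij)
      have h0' : 0 < α₀ := pos_iff_ne_zero.2 h0
      obtain ⟨B, -, h3, -, h4, -⟩ := (hh 0 (h0'.trans hα₀)).2.2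
      exact ⟨T, hT, ((hTh 0 h0').trans h4).trans h3, hTh⟩
  have hdich : ∀ n, Om n T ∨ ∀ B ∈ D, B ⊆ T → ¬ Om n B := by
    intro n
    obtain ⟨B, -, -, -, -, h3⟩ := (hh (e n) ((he1 n).trans hα₀)).2.2
    rcases h3 n rfl with h4 | h4
    · exact Or.inl (hmono n _ _ (hTh _ (he1 n)) h4)
    · exact Or.inr fun B hB hBT => h4 B hB (hBT.trans (hTh _ (he1 n)))
  obtain ⟨P, hP⟩ : ∃ P : Set γ, P = {n | ∀ B ∈ D, B ⊆ T → ¬ Om n B} := ⟨_, rfl⟩
  -- the closed system below `T`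
  have hC' : Clo (succ ν).ord {B | B ∈ D ∧ B ⊆ T} := by
    intro α hα g hg1 hg2
    rcases eq_or_ne α 0 with rfl | hα0
    · exact ⟨T, ⟨hT, subset_rfl⟩, fun i hi => absurd hi not_lt_zero⟩
    · obtain ⟨B, hB, hBg⟩ := hC α hα g (fun i hi => (hg1 i hi).1) hg2
      have h0 : 0 < α := pos_iff_ne_zero.2 hα0
      exact ⟨B, ⟨hB, (hBg 0 h0).trans (hg1 0 h0).2⟩, hBg⟩
  obtain ⟨n, -, hn⟩ := sys_ord hτ hτν h2 hγ f T P {B | B ∈ D ∧ B ⊆ T}
    (fun a ha => (hD T hT).1 a ha) (fun B hB => hB.2) (by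
      intro a ha b hb hab
      rw [hP]
      rcases hdich (f a b) with h3 | h3
      · exact absurd rfl (h3 a ha b hb hab)
      · exact h3) (fun B hB w hw => (hD B hB.1).2 w hw) (by
      rintro B ⟨hB, hBT⟩
      obtain ⟨k, hk⟩ := dec_rec hC' (fun v : Set Ordinal.{0} => v)
        (fun i _ v => ∀ n ∈ P, e n = i → ∀ a ∈ v, ∃ B'' ∈ D, B'' ⊆ B ∧
          ∀ y ∈ B'', a < y ∧ f a y = n) B ⟨hB, hBT⟩ B (by
          rintro i hi B1 ⟨hB1, hB1T⟩ hB1B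
          by_cases hex : ∃ n ∈ P, e n = i
          · obtain ⟨n, hnP, hn⟩ := hex
            obtain ⟨B2, hB2, hB21, h3⟩ := hN B1 hB1 n
            refine ⟨B2, ⟨hB2, hB21.trans hB1T⟩, hB21, fun n' _ hn' a ha => ?_⟩
            rw [he2 n' n (hn'.trans hn.symm)]
            rw [hP] at hnP
            rcases h3 with h3 | h3
            · exact absurd h3 (hnP B2 hB2 (hB21.trans hB1T))
            · obtain ⟨B3, hB3, hB31, h4⟩ := h3 a ha
              exact ⟨B3, hB3, hB31.trans hB1B, h4⟩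
          · exact ⟨B1, ⟨hB1, hB1T⟩, subset_rfl, fun n hnP hn => absurd ⟨n, hnP, hn⟩ hex⟩)
      obtain ⟨B', ⟨hB', hB'T⟩, hB'B, hB'k⟩ : ∃ B' ∈ {B | B ∈ D ∧ B ⊆ T}, B' ⊆ B ∧
          ∀ i < α₀, B' ⊆ k i := by
        rcases eq_or_ne α₀ 0 with h0 | h0
        · exact ⟨B, ⟨hB, hBT⟩, subset_rfl, fun i hi => by
            rw [h0] at hi
            exact absurd hi not_lt_zero⟩
        · obtain ⟨B', hB', hB'k⟩ := hC' α₀ hα₀ k (fun i hi => (hk i (hi.trans hα₀)).1)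
            (fun i j hij hj => (hk j (hj.trans hα₀)).2.1 i hij)
          have h0' : 0 < α₀ := pos_iff_ne_zero.2 h0
          obtain ⟨B1, -, h3, -, h4, -⟩ := (hk 0 (h0'.trans hα₀)).2.2
          exact ⟨B', hB', ((hB'k 0 h0').trans h4).trans h3, hB'k⟩
      refine ⟨B', ⟨hB', hB'T⟩, hB'B, fun a ha n hn => ?_⟩
      obtain ⟨B1, -, -, -, -, h3⟩ := (hk (e n) ((he1 n).trans hα₀)).2.2
      obtain ⟨B'', hB'', hB''B, h4⟩ := h3 n hn rfl a (hB'k _ (he1 n) ha)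
      exact ⟨B'', ⟨hB'', hB''B.trans hBT⟩, hB''B, h4⟩) hC'
  refine ⟨n, fun α hα => ?_⟩
  obtain ⟨h, hh1, hh2⟩ := hn α hα
  exact ⟨h, fun j hj => hTB₀ (hh1 j hj), hh2⟩

/-- The union of few small sets is small. -/
theorem union_le_u {ι Y : Type u} {c : Cardinal.{u}} (hc : ℵ₀ ≤ c) (hι : #ι ≤ c) (s : ι → Set Y)
    (h : ∀ i, #(s i) ≤ c) : #(⋃ i, s i : Set Y) ≤ c := by
  refine (mk_iUnion_le_sum_mk).trans ?_
  refine (sum_le_mk_mul_iSup _).trans ?_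
  exact (mul_le_mul' hι (ciSup_le' h)).trans (mul_eq_self hc).le

/-- Every partial function from at most `c` points of `T` to `P` is realised by arbitrarily large
points of `T`. -/
def Saturated {γ : Type} (c : Cardinal.{1}) (κ : Ordinal.{0}) (f : Ordinal.{0} → Ordinal.{0} → γ)
    (T : Set Ordinal.{0}) (P : Set γ) : Prop :=
  ∀ s : Set (Ordinal.{0} × γ), #s ≤ c → (∀ p ∈ s, p.1 ∈ T ∧ p.2 ∈ P) →
    (∀ p ∈ s, ∀ q ∈ s, p.1 = q.1 → p.2 = q.2) →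
      ∀ w < κ, ∃ y ∈ T, w < y ∧ ∀ p ∈ s, p.1 < y ∧ f p.1 y = p.2

/-- Saturated colourings have closed systems. -/
theorem sat_ord {ν τ : Cardinal.{0}} (hτ : ℵ₀ ≤ τ) (hτν : 2 ^ τ ≤ ν) (h2 : 2 ^ ν = succ ν)
    {γ : Type} (hγ : #γ ≤ τ) (f : Ordinal.{0} → Ordinal.{0} → γ) (T : Set Ordinal.{0})
    (P : Set γ) (hT : ∀ a ∈ T, a < (succ (succ ν)).ord)
    (hP : ∀ a ∈ T, ∀ b ∈ T, a < b → f a b ∈ P)
    (hS : Saturated (Cardinal.lift.{1} ν) (succ (succ ν)).ord f T P) :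
    ∃ n ∈ P, ∀ α < (succ τ).ord, Hom T f n ((succ ν).ord + α) := by
  classical
  have h1 : ℵ₀ ≤ ν := (hτ.trans (cantor τ).le).trans hτν
  have h1' : ℵ₀ ≤ Cardinal.lift.{1} ν := by
    rw [aleph0_le_lift]
    exact h1
  let Bs : Set (Ordinal.{0} × γ) → Set Ordinal.{0} := fun s =>
    {y | y ∈ T ∧ ∀ p ∈ s, p.1 < y ∧ f p.1 y = p.2}
  let Ok : Set (Ordinal.{0} × γ) → Prop := fun s => #s ≤ Cardinal.lift.{1} ν ∧
    (∀ p ∈ s, p.1 ∈ T ∧ p.2 ∈ P) ∧ ∀ p ∈ s, ∀ q ∈ s, p.1 = q.1 → p.2 = q.2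
  have hne : ∀ s, Ok s → ∀ w < (succ (succ ν)).ord, ∃ a ∈ Bs s, w < a := by
    rintro s ⟨hs1, hs2, hs3⟩ w hw
    obtain ⟨y, hyT, hwy, hy⟩ := hS s hs1 hs2 hs3 w hw
    exact ⟨y, ⟨hyT, hy⟩, hwy⟩
  have hpos : 0 < (succ (succ ν)).ord := by
    rw [Cardinal.lt_ord, Ordinal.card_zero]
    exact lt_of_lt_of_le aleph0_pos ((h1.trans (le_succ ν)).trans (le_succ _))
  refine sys_ord hτ hτν h2 hγ f T P {B | ∃ s, Ok s ∧ B = Bs s} hT ?_ hP ?_ ?_ ?_
  · rintro B ⟨s, -, rfl⟩ y hy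
    exact hy.1
  · rintro B ⟨s, hs, rfl⟩ w hw
    exact hne s hs w hw
  · rintro B ⟨s, ⟨hs1, hs2, hs3⟩, rfl⟩
    refine ⟨Bs s, ⟨s, ⟨hs1, hs2, hs3⟩, rfl⟩, subset_rfl, fun a ha n hn => ?_⟩
    refine ⟨Bs (insert (a, n) s), ⟨_, ⟨?_, ?_, ?_⟩, rfl⟩, ?_, ?_⟩
    · refine (mk_insert_le).trans ((add_le_add hs1 ?_).trans (add_eq_self h1').le)
      exact one_le_aleph0.trans h1'
    · rintro p (rfl | hp)
      · exact ⟨ha.1, hn⟩
      · exact hs2 p hp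
    · rintro p (rfl | hp) q (rfl | hq) hpq
      · rfl
      · exact absurd hpq.symm (ha.2 q hq).1.ne
      · exact absurd hpq (ha.2 p hp).1.ne
      · exact hs3 p hp q hq hpq
    · rintro y ⟨hyT, hy⟩
      exact ⟨hyT, fun p hp => hy p (Or.inr hp)⟩
    · rintro y ⟨hyT, hy⟩
      exact hy _ (Or.inl rfl)
  · intro α hα g hg1 hg2
    have : Nonempty (Set (Ordinal.{0} × γ)) := ⟨∅⟩
    choose! s hs1 hs2 using hg1
    refine ⟨Bs (⋃ i : Iio α, s i.1), ⟨_, ⟨?_, ?_, ?_⟩, rfl⟩, ?_⟩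
    · refine union_le_u h1' ?_ _ fun i => (hs1 i.1 i.2).1
      rw [Cardinal.mk_Iio_ordinal, Cardinal.lift_le]
      exact lt_succ_iff.1 (Cardinal.lt_ord.1 hα)
    · intro p hp
      obtain ⟨i, hi⟩ := mem_iUnion.1 hp
      exact (hs1 i.1 i.2).2.1 p hi
    · intro p hp q hq hpq
      obtain ⟨⟨i, hi'⟩, hi⟩ := mem_iUnion.1 hp
      obtain ⟨⟨j, hj'⟩, hj⟩ := mem_iUnion.1 hq
      have key : ∀ i j, i ≤ j → j < α → g j ⊆ g i := by
        intro i j hij hj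
        rcases hij.lt_or_eq with h | rfl
        · exact hg2 i j h hj
        · exact subset_rfl
      -- a point realising both
      obtain ⟨k, hk, hik, hjk⟩ : ∃ k < α, i ≤ k ∧ j ≤ k :=
        ⟨max i j, max_lt hi' hj', le_max_left _ _, le_max_right _ _⟩
      obtain ⟨y, hy, -⟩ := hne (s k) (hs1 k hk) 0 hpos
      rw [← hs2 k hk] at hy
      have h3 := key i k hik hk hy
      have h4 := key j k hjk hk hy
      rw [hs2 i hi'] at h3
      rw [hs2 j hj'] at h4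
      have h5 := (h3.2 p hi).2
      have h6 := (h4.2 q hj).2
      rw [← h5, ← h6, hpq]
    · intro i hi y hy
      rw [hs2 i hi]
      exact ⟨hy.1, fun p hp => hy.2 p (mem_iUnion.2 ⟨⟨i, hi⟩, hp⟩)⟩

/-- Normal ideals on `κ`. -/
structure NormalIdeal (κ : Ordinal.{0}) (I : Set (Set Ordinal.{0})) : Prop where
  sub : ∀ X ∈ I, ∀ Y ⊆ X, Y ∈ I
  union : ∀ X ∈ I, ∀ Y ∈ I, X ∪ Y ∈ I
  small : ∀ w < κ, Iio w ∈ I
  proper : Iio κ ∉ I
  normal : ∀ X : Ordinal.{0} → Set Ordinal.{0}, (∀ a < κ, X a ∈ I) →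
    {y | y < κ ∧ ∃ a < y, y ∈ X a} ∈ I

/-- `D` is a dense set of positive sets. -/
def DensePos (κ : Ordinal.{0}) (I D : Set (Set Ordinal.{0})) : Prop :=
  (∀ B ∈ D, B ⊆ Iio κ ∧ B ∉ I) ∧ ∀ A ⊆ Iio κ, A ∉ I → ∃ B ∈ D, B ⊆ A

/-- A normal ideal with a closed dense set gives a closed system for every colouring. -/
theorem ideal_ord {ν τ : Cardinal.{0}} (hτ : ℵ₀ ≤ τ) (hτν : 2 ^ τ ≤ ν) (h2 : 2 ^ ν = succ ν)
    {γ : Type} (hγ : #γ ≤ τ) (f : Ordinal.{0} → Ordinal.{0} → γ) (I D : Set (Set Ordinal.{0}))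
    (hI : NormalIdeal (succ (succ ν)).ord I) (hD : DensePos (succ (succ ν)).ord I D)
    (hC : Clo (succ ν).ord D) (T : Set Ordinal.{0}) (hT : T ⊆ Iio (succ (succ ν)).ord)
    (hTI : T ∉ I) :
    ∃ n, ∀ α < (succ τ).ord, Hom T f n ((succ ν).ord + α) := by
  classical
  have h1 : ℵ₀ ≤ ν := (hτ.trans (cantor τ).le).trans hτν
  have hpos : 0 < (succ (succ ν)).ord := by
    rw [Cardinal.lt_ord, Ordinal.card_zero]
    exact lt_of_lt_of_le aleph0_pos ((h1.trans (le_succ ν)).trans (le_succ _))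
  have hlim : ∀ w < (succ (succ ν)).ord, w + 1 < (succ (succ ν)).ord := fun w hw =>
    (isSuccLimit_ord ((h1.trans (le_succ ν)).trans (le_succ _))).add_one_lt hw
  have hemp : (∅ : Set Ordinal.{0}) ∈ I := hI.sub _ (hI.small 0 hpos) _ (empty_subset _)
  obtain ⟨B₀, hB₀, hB₀T⟩ := hD.2 T hT hTI
  obtain ⟨n, hn⟩ := crit_ord hτ hτν h2 hγ f D (by
    intro B hB
    refine ⟨(hD.1 B hB).1, fun w hw => ?_⟩
    by_contra hcon
    push Not at hcon
    refine (hD.1 B hB).2 (hI.sub _ (hI.small _ (hlim w hw)) _ fun a ha => ?_)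
    exact Order.lt_add_one_iff.2 (hcon a ha)) hC (by
    intro B hB n
    obtain ⟨N, hN⟩ : ∃ N, N = {a | a ∈ B ∧ {y | y ∈ B ∧ a < y ∧ f a y = n} ∈ I} := ⟨_, rfl⟩
    have hNB : N ⊆ B := by
      rw [hN]
      exact fun a ha => ha.1
    by_cases hNI : N ∈ I
    · -- the colour is positive
      have h4 : B \ N ∉ I := fun h5 =>
        (hD.1 B hB).2 (hI.sub _ (hI.union _ h5 _ hNI) _ fun a ha => by
          by_cases h6 : a ∈ N
          · exact Or.inr h6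
          · exact Or.inl ⟨ha, h6⟩)
      obtain ⟨B', hB', hB'B⟩ := hD.2 _ (sdiff_subset.trans (hD.1 B hB).1) h4
      refine ⟨B', hB', hB'B.trans sdiff_subset, Or.inr fun a ha => ?_⟩
      have h5 : {y | y ∈ B ∧ a < y ∧ f a y = n} ∉ I := fun h6 =>
        (hB'B ha).2 (by
          rw [hN]
          exact ⟨(hB'B ha).1, h6⟩)
      obtain ⟨B'', hB'', hB''B⟩ := hD.2 _
        (fun y (hy : y ∈ {y | y ∈ B ∧ a < y ∧ f a y = n}) => (hD.1 B hB).1 hy.1) h5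
      exact ⟨B'', hB'', fun y hy => (hB''B hy).1, fun y hy => (hB''B hy).2⟩
    · -- the colour can be omitted
      let X : Ordinal.{0} → Set Ordinal.{0} := fun a =>
        if a ∈ N then {y | y ∈ B ∧ a < y ∧ f a y = n} else ∅
      have hX : ∀ a < (succ (succ ν)).ord, X a ∈ I := by
        intro a _
        by_cases ha : a ∈ N
        · have h3 : X a = {y | y ∈ B ∧ a < y ∧ f a y = n} := if_pos ha
          rw [h3]
          rw [hN] at ha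
          exact ha.2
        · have h3 : X a = ∅ := if_neg ha
          rw [h3]
          exact hemp
      have hΔ := hI.normal X hX
      obtain ⟨Δ, hΔ'⟩ : ∃ Δ, Δ = {y | y < (succ (succ ν)).ord ∧ ∃ a < y, y ∈ X a} := ⟨_, rfl⟩
      rw [← hΔ'] at hΔ
      have h3 : N \ Δ ∉ I := fun h4 => hNI (hI.sub _ (hI.union _ h4 _ hΔ) _ fun a ha => by
        by_cases h5 : a ∈ Δ
        · exact Or.inr h5
        · exact Or.inl ⟨ha, h5⟩)
      obtain ⟨B', hB', hB'N⟩ := hD.2 _ (sdiff_subset.trans (hNB.trans (hD.1 B hB).1)) h3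
      refine ⟨B', hB', (hB'N.trans sdiff_subset).trans hNB, Or.inl fun a ha b hb hab hfab => ?_⟩
      refine (hB'N hb).2 ?_
      rw [hΔ']
      refine ⟨(hD.1 B' hB').1 hb, a, hab, ?_⟩
      have h5 : X a = {y | y ∈ B ∧ a < y ∧ f a y = n} := if_pos (hB'N ha).1
      rw [h5]
      exact ⟨hNB (hB'N hb).1, hab, hfab⟩) B₀ hB₀
  refine ⟨n, fun α hα => ?_⟩
  obtain ⟨h, hh1, hh2⟩ := hn α hα
  exact ⟨h, fun j hj => hB₀T (hh1 j hj), hh2⟩

end Pool.Agent.CSY
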